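import Mathlib
import Pool.Agent.K7.H67.SQ.Alm

/-!
# MP_e94e4b_nt: pairs of almost primes, for all `N`, in all short windows

For every `θ > 0` there are an integer `r` and positive constants `c`, `δ` such that for every large
`N` every window `(u, u + L]` in `[2, 2 N]` of length `L ≥ N ^ θ` contains at least
`c L / (log N)^2` integers `k` such that both `N ^ 2 + k + 1` and `(N + 1) ^ 2 - k` have at most `r`
prime factors (with multiplicity), all of them larger than `N ^ δ`.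
-/

set_option autoImplicit false

namespace Pool.Agent.Results.MP_e94e4b_nt.AlmostPrimePairs

open Classical in
theorem result (θ : ℝ) (hθ : 0 < θ) : ∃ (r : ℕ) (c δ : ℝ), 0 < c ∧ 0 < δ ∧ ∃ N₀ : ℕ,
    ∀ N : ℕ, N₀ ≤ N → ∀ u L : ℕ, 1 ≤ u → u + L ≤ 2 * N → (N : ℝ) ^ θ ≤ L →
      c * (L / Real.log N ^ 2) ≤ (((Finset.Ioc u (u + L)).filter (fun k : ℕ =>
        (N ^ 2 + k + 1).primeFactorsList.length ≤ r ∧
        ((N + 1) ^ 2 - k).primeFactorsList.length ≤ r ∧
        ∀ p : ℕ, p.Prime → p ∣ (N ^ 2 + k + 1) * ((N + 1) ^ 2 - k) → (N : ℝ) ^ δ < p)).card : ℝ) :=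
  Pool.Agent.K7.H67.SQ.almost θ hθ

end Pool.Agent.Results.MP_e94e4b_nt.AlmostPrimePairs
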