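import Mathlib
import Pool.Agent.K7.H67.SQ.Fin

/-!
# MP_e94e4b_nt: a prime and an almost prime, for a positive proportion of the `N`

There are an integer `r` and positive constants `c`, `δ` such that for every large `X` and every
window `[α, β]` in `[0, 1]` of length `≥ X ^ (-δ)`, for at least `c X` of the `N ≤ X` there are at
least `c (β - α) N / (log N)^2` integers `k` in `[2 α N, 2 β N]`, `2 ≤ k ≤ 2 N`, such that
`N ^ 2 + k + 1` is a prime and `(N + 1) ^ 2 - k` has at most `r` prime factors (with multiplicity),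
all of them larger than `N ^ δ`.

The proof combines the fundamental lemma of the sieve with the theorem of Bombieri and Vinogradov
and with bounds for exponential sums over primes with the phase `√p` (the joint distribution of
`(⌊√p⌋ mod d, p mod d)` and of the fractional part of `√p`), and a second moment argument.
-/

set_option autoImplicit false

namespace Pool.Agent.Results.MP_e94e4b_nt.PrimeAlmostPrime

open Classical in
theorem result : ∃ (r : ℕ) (c δ : ℝ), 0 < c ∧ 0 < δ ∧ ∃ X₀ : ℕ, ∀ X : ℕ, X₀ ≤ X →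
    ∀ α β : ℝ, 0 ≤ α → β ≤ 1 → (X : ℝ) ^ (-δ) ≤ β - α →
      c * X ≤ (((Finset.Icc 2 X).filter (fun N : ℕ => c * ((β - α) * (N / Real.log N ^ 2)) ≤
        (((Finset.Icc 2 (2 * N)).filter (fun k : ℕ => 2 * α * N ≤ k ∧ (k : ℝ) ≤ 2 * β * N ∧
          (N ^ 2 + k + 1).Prime ∧ ((N + 1) ^ 2 - k).primeFactorsList.length ≤ r ∧
            ∀ p : ℕ, p.Prime → p ∣ (N + 1) ^ 2 - k → (N : ℝ) ^ δ < p)).card : ℝ))).card : ℝ) :=
  Pool.Agent.K7.H67.SQ.main

end Pool.Agent.Results.MP_e94e4b_nt.PrimeAlmostPrime
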