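import Pool.Agent.K7.H40.GB.Pair

/-!
# Trigonometric polynomials over the `k` with `N ^ 2 + k + 1` and `(N + 1) ^ 2 - k` prime

The two numbers have the sum `2 (N ^ 2 + N + 1)`, so the pairs of primes of the problem are the solutions of
`p + q = 2 (N ^ 2 + N + 1)` in an interval of length about `2 N`, the square root of the numbers. We take an arbitrary
window of `L` numbers `k` (of any length, and anywhere up to `(N + 1) ^ 2`), and any set `S` of numbers `k` of this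
window for which both numbers are prime or both have no prime factors up to a fixed power of `L`. For arbitrary
complex numbers `a k` we show, with constants which do not depend on `N`,

* the large sieve inequality at `R` points with spacing `δ`, with the gain `(log (2 R) / log L) ^ 2` over the bound
  `L + 1 / δ`, times the product of `1 + 1 / p` over the prime factors `p > R` of `N ^ 2 + N + 1`,
* for all `p > 2` the restriction theorem: the norms of the trigonometric polynomials in `L ^ p` have the order which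
  is expected for a set with `L / (log L) ^ 2` times the singular series elements.

The sieve product of the pair of forms `k + a`, `k - b` is the one of `k`, `k + a + b`, by the reflection
`k ↦ - k - a` of the residue classes. The estimates are then deduced from the uniform theorems of helper64 on sifted
sets (`Pool/Agent/K7/H64/LS/Uni`), whose constants depend only on the degrees of the polynomials.
-/

set_option autoImplicit false

namespace Pool.Agent.Results.MP_e94e4b_nt.RestrictionInWindows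

open Finset

/-- The numbers `N ^ 2 + k + 1` and `(N + 1) ^ 2 - k` are both prime, or all prime factors `p` of the two numbers
satisfy `p > y`. -/
def Sifted (N : ℕ) (y : ℝ) (k : ℕ) : Prop :=
  ((N ^ 2 + k + 1).Prime ∧ ((N + 1) ^ 2 - k).Prime) ∨
    ∀ p : ℕ, p.Prime → p ∣ (N ^ 2 + k + 1) * ((N + 1) ^ 2 - k) → y < p

/-- The product of `1 + 1 / p` over the prime factors `p > t` of `N ^ 2 + N + 1`. -/
noncomputable def P (t : ℝ) (N : ℕ) : ℝ :=
  ∏ p ∈ (Nat.primeFactors (N ^ 2 + N + 1)).filter (fun p : ℕ => t < p), (1 + 1 / (p : ℝ))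

theorem good_of {N L k : ℕ} {κ : ℝ} (hk : k ≤ (N + 1) ^ 2) (h : Sifted N ((L : ℝ) ^ κ) k) :
    Pool.Agent.K7.H64.LS.Good (Pool.Agent.K7.H40.GB.gd (N ^ 2 + 1) ((N + 1) ^ 2)) κ L k := by
  have e0 := (Pool.Agent.K7.H40.GB.gd_eval (N ^ 2 + 1) ((N + 1) ^ 2) (k : ℤ)).1
  have e1 := (Pool.Agent.K7.H40.GB.gd_eval (N ^ 2 + 1) ((N + 1) ^ 2) (k : ℤ)).2
  have f0 : (k : ℤ) + ((N ^ 2 + 1 : ℕ) : ℤ) = ((N ^ 2 + k + 1 : ℕ) : ℤ) := by push_cast; ring
  have f1 : (k : ℤ) - (((N + 1) ^ 2 : ℕ) : ℤ) = -(((N + 1) ^ 2 - k : ℕ) : ℤ) := by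
    rw [Nat.cast_sub hk]
    ring
  rcases h with h2 | h2
  · right
    intro i
    fin_cases i
    · change ((Pool.Agent.K7.H40.GB.gd (N ^ 2 + 1) ((N + 1) ^ 2) 0).eval (k : ℤ)).natAbs.Prime
      rw [e0, f0, Int.natAbs_natCast]
      exact h2.1
    · change ((Pool.Agent.K7.H40.GB.gd (N ^ 2 + 1) ((N + 1) ^ 2) 1).eval (k : ℤ)).natAbs.Prime
      rw [e1, f1, Int.natAbs_neg, Int.natAbs_natCast]
      exact h2.2
  · left
    rintro q hq ⟨i, hd'⟩
    apply h2 q hq
    fin_cases i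
    · change (q : ℤ) ∣ (Pool.Agent.K7.H40.GB.gd (N ^ 2 + 1) ((N + 1) ^ 2) 0).eval (k : ℤ) at hd'
      rw [e0, f0] at hd'
      exact dvd_mul_of_dvd_left (by exact_mod_cast hd') _
    · change (q : ℤ) ∣ (Pool.Agent.K7.H40.GB.gd (N ^ 2 + 1) ((N + 1) ^ 2) 1).eval (k : ℤ) at hd'
      rw [e1, f1, dvd_neg] at hd'
      exact dvd_mul_of_dvd_right (by exact_mod_cast hd') _

theorem sum_eq (N : ℕ) : N ^ 2 + 1 + (N + 1) ^ 2 = 2 * (N ^ 2 + N + 1) := by ring

theorem PP_le (t : ℝ) (N : ℕ) : Pool.Agent.K7.H64.BQ.PP t (N ^ 2 + 1 + (N + 1) ^ 2) ≤ 3 / 2 * P t N := by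
  rw [sum_eq]
  exact Pool.Agent.K7.H40.GB.PP_two (by positivity) t

theorem P_nonneg (t : ℝ) (N : ℕ) : 0 ≤ P t N := by
  unfold P
  exact prod_nonneg fun p _ => by positivity

/-- **Large sieve at few points and restriction theorem for the pairs of the problem, in all windows.** Let `κ > 0`.

* There is `C` such that for all `N`, all windows `(u, u + L]`, `L ≥ 2`, `u + L ≤ (N + 1) ^ 2`, all sets `S` of
  numbers `k` of the window which are sifted for `N` and `L ^ κ`, all real numbers `α_1, ..., α_R` with pairwise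
  distance at least `δ > 0` modulo `1` and all complex numbers `a k`: the sum over `i` of `|∑ a k e(k α_i)| ^ 2`,
  with `k` in `S`, is at most `C (L + 1 / δ) (log (2 R) / log L) ^ 2 P_R(N) ∑ |a k| ^ 2`.
* For every `p > 2` there is `C` such that for all such `N`, `u`, `L`, `S`, `a` the integral of `|∑ a k e(k α)| ^ p`
  over `0 ≤ α ≤ 1` is at most `(C / L) (L / (log L) ^ 2 * P_0(N) * ∑ |a k| ^ 2) ^ (p / 2)`. -/
theorem result (κ : ℝ) (hκ : 0 < κ) :
    (∃ C : ℝ, 0 < C ∧ ∀ (N u L : ℕ) (S : Finset ℕ), 2 ≤ L → u + L ≤ (N + 1) ^ 2 →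
      S ⊆ Ioc u (u + L) → (∀ k ∈ S, Sifted N ((L : ℝ) ^ κ) k) →
      ∀ (R : ℕ) (α : Fin R → ℝ) (δ : ℝ), 0 < δ →
        (∀ i j : Fin R, i ≠ j → ∀ m : ℤ, δ ≤ |α i - α j - m|) →
        ∀ a : ℕ → ℂ,
          ∑ i : Fin R, ‖∑ k ∈ S, a k * Complex.exp (2 * Real.pi * Complex.I * k * α i)‖ ^ 2 ≤
            C * ((L : ℝ) + 1 / δ) * ((Real.log (2 * R) / Real.log L) ^ 2 * P R N) * ∑ k ∈ S, ‖a k‖ ^ 2) ∧
    ∀ p : ℝ, 2 < p → ∃ C : ℝ, 0 < C ∧ ∀ (N u L : ℕ) (S : Finset ℕ), 2 ≤ L → u + L ≤ (N + 1) ^ 2 →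
      S ⊆ Ioc u (u + L) → (∀ k ∈ S, Sifted N ((L : ℝ) ^ κ) k) → ∀ a : ℕ → ℂ,
        ∫ α in (0 : ℝ)..1, ‖∑ k ∈ S, a k * Complex.exp (2 * Real.pi * Complex.I * k * α)‖ ^ p ≤
          C / L * (L / Real.log L ^ 2 * P 0 N * ∑ k ∈ S, ‖a k‖ ^ 2) ^ (p / 2) := by
  have hgood : ∀ (N u L : ℕ) (S : Finset ℕ), u + L ≤ (N + 1) ^ 2 → S ⊆ Ioc u (u + L) →
      (∀ k ∈ S, Sifted N ((L : ℝ) ^ κ) k) →
      ∀ k ∈ S, Pool.Agent.K7.H64.LS.Good (Pool.Agent.K7.H40.GB.gd (N ^ 2 + 1) ((N + 1) ^ 2)) κ L k := by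
    intro N u L S hu hSI hS k hk
    have h1 := mem_Ioc.1 (hSI hk)
    exact good_of (by omega) (hS k hk)
  have heven : ∀ N : ℕ, Even (N ^ 2 + 1 + (N + 1) ^ 2) := fun N => by
    rw [sum_eq]
    exact even_two_mul _
  have hpos : ∀ N : ℕ, 0 < N ^ 2 + 1 + (N + 1) ^ 2 := fun N => by positivity
  refine ⟨?_, ?_⟩
  · obtain ⟨C, hC, h⟩ := Pool.Agent.K7.H40.GB.lsf_sum hκ
    refine ⟨C * (3 / 2), by positivity, fun N u L S hL hu hSI hS R α δ hδ hsep a => ?_⟩
    refine (h _ _ (heven N) (hpos N) L hL u S hSI (hgood N u L S hu hSI hS) R α δ hδ hsep a).trans ?_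
    have h1 := PP_le (R : ℝ) N
    have hG0 : 0 ≤ ∑ n ∈ S, ‖a n‖ ^ 2 := sum_nonneg fun i _ => by positivity
    calc C * ((L : ℝ) + 1 / δ) * ((Real.log (2 * R) / Real.log L) ^ 2 *
          Pool.Agent.K7.H64.BQ.PP R (N ^ 2 + 1 + (N + 1) ^ 2)) * ∑ k ∈ S, ‖a k‖ ^ 2 ≤
        C * ((L : ℝ) + 1 / δ) * ((Real.log (2 * R) / Real.log L) ^ 2 * (3 / 2 * P R N)) *
          ∑ k ∈ S, ‖a k‖ ^ 2 := by
          apply mul_le_mul_of_nonneg_right _ hG0
          apply mul_le_mul_of_nonneg_left _ (by positivity)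
          exact mul_le_mul_of_nonneg_left h1 (by positivity)
      _ = _ := by ring
  · intro p hp
    obtain ⟨C, hC, h⟩ := Pool.Agent.K7.H40.GB.restr_sum hκ hp
    refine ⟨C * (3 / 2) ^ (p / 2), by positivity, fun N u L S hL hu hSI hS a => ?_⟩
    refine (h _ _ (heven N) (hpos N) L hL u S hSI (hgood N u L S hu hSI hS) a).trans ?_
    have h1 := PP_le 0 N
    have hP0 := P_nonneg 0 N
    have hL0 : (0 : ℝ) < L := by
      have : (2 : ℝ) ≤ L := by exact_mod_cast hL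
      linarith
    have hG0 : 0 ≤ ∑ n ∈ S, ‖a n‖ ^ 2 := sum_nonneg fun i _ => by positivity
    have hQ0 := Pool.Agent.K7.H64.BQ.one_le_PP 0 (N ^ 2 + 1 + (N + 1) ^ 2)
    calc C / L * (L / Real.log L ^ 2 * Pool.Agent.K7.H64.BQ.PP 0 (N ^ 2 + 1 + (N + 1) ^ 2) *
          ∑ k ∈ S, ‖a k‖ ^ 2) ^ (p / 2) ≤
        C / L * (3 / 2 * (L / Real.log L ^ 2 * P 0 N * ∑ k ∈ S, ‖a k‖ ^ 2)) ^ (p / 2) := by
          apply mul_le_mul_of_nonneg_left _ (by positivity)
          apply Real.rpow_le_rpow (by positivity) _ (by linarith)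
          calc L / Real.log L ^ 2 * Pool.Agent.K7.H64.BQ.PP 0 (N ^ 2 + 1 + (N + 1) ^ 2) * ∑ k ∈ S, ‖a k‖ ^ 2 ≤
                L / Real.log L ^ 2 * (3 / 2 * P 0 N) * ∑ k ∈ S, ‖a k‖ ^ 2 := by
                apply mul_le_mul_of_nonneg_right _ hG0
                exact mul_le_mul_of_nonneg_left h1 (by positivity)
            _ = _ := by ring
      _ = _ := by
        rw [Real.mul_rpow (by norm_num) (by positivity)]
        ring

end Pool.Agent.Results.MP_e94e4b_nt.RestrictionInWindows
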