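import Pool.Agent.K7.H40.GB.Dense

/-!
# Sumsets of dense sets of `k` with `N ^ 2 + k + 1` and `(N + 1) ^ 2 - k` prime

Let `A` be a set of numbers `k` of a window of length `L` for which `N ^ 2 + k + 1` and `(N + 1) ^ 2 - k` are prime
(or have no prime factors up to a fixed power of `L`), and let `B` be such a set for a second number `M` in place of
`N`, possibly the same. The number of the elements of `A` is at most a constant times `P(N) L / (log L) ^ 2`, where
`P(N)` is the product of `1 + 1 / p` over the prime factors of `2 (N ^ 2 + N + 1)`, which has the order of the singular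
series. If both sets have at least `L / (log L) ^ (21 / 10)` elements, up to the factors `P(N)`, `P(M)`, and if
`1 / X` is the relative density of `B`, then `A + B` is larger than `A` by the factor
`(log L) ^ 2 / ((loglog X) ^ 2 P_t(N))`, where `P_t(N)` is the product of `1 + 1 / p` over the prime factors
`p > t = log X` of `2 (N ^ 2 + N + 1)`. The constants do not depend on `N`, `M` or the windows. In particular, sets of
positive relative density have a sumset of positive density.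

The method is the one of the theorems of helper64 on the prime pairs `n`, `n + d` (`Pool/Agent/K7/H64`): an
inequality for the entropy of sums of independent random elements of a finite group which avoid few classes, combined
with the large sieve at few points and the restriction theorem in residue classes.
-/

set_option autoImplicit false

namespace Pool.Agent.Results.MP_e94e4b_nt.SumsetsOfPairs

open Finset

/-- The numbers `N ^ 2 + k + 1` and `(N + 1) ^ 2 - k` are both prime, or all prime factors `p` of the two numbers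
satisfy `p > y`. -/
def Sifted (N : ℕ) (y : ℝ) (k : ℕ) : Prop :=
  ((N ^ 2 + k + 1).Prime ∧ ((N + 1) ^ 2 - k).Prime) ∨
    ∀ p : ℕ, p.Prime → p ∣ (N ^ 2 + k + 1) * ((N + 1) ^ 2 - k) → y < p

/-- The product of `1 + 1 / p` over the prime factors `p > t` of `2 (N ^ 2 + N + 1)`. -/
noncomputable def P (t : ℝ) (N : ℕ) : ℝ :=
  ∏ p ∈ (Nat.primeFactors (2 * (N ^ 2 + N + 1))).filter (fun p : ℕ => t < p), (1 + 1 / (p : ℝ))

theorem good_of {N L k : ℕ} {κ : ℝ} (hk : k ≤ (N + 1) ^ 2) (h : Sifted N ((L : ℝ) ^ κ) k) :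
    Pool.Agent.K7.H64.LS.Good (Pool.Agent.K7.H40.GB.gd (N ^ 2 + 1) ((N + 1) ^ 2)) κ L k := by
  have e0 := (Pool.Agent.K7.H40.GB.gd_eval (N ^ 2 + 1) ((N + 1) ^ 2) (k : ℤ)).1
  have e1 := (Pool.Agent.K7.H40.GB.gd_eval (N ^ 2 + 1) ((N + 1) ^ 2) (k : ℤ)).2
  have f0 : (k : ℤ) + ((N ^ 2 + 1 : ℕ) : ℤ) = ((N ^ 2 + k + 1 : ℕ) : ℤ) := by push_cast; ring
  have f1 : (k : ℤ) - (((N + 1) ^ 2 : ℕ) : ℤ) = -(((N + 1) ^ 2 - k : ℕ) : ℤ) := by
    rw [Nat.cast_sub hk]
    ring
  rcases h with h2 | h2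
  · right
    intro i
    fin_cases i
    · change ((Pool.Agent.K7.H40.GB.gd (N ^ 2 + 1) ((N + 1) ^ 2) 0).eval (k : ℤ)).natAbs.Prime
      rw [e0, f0, Int.natAbs_natCast]
      exact h2.1
    · change ((Pool.Agent.K7.H40.GB.gd (N ^ 2 + 1) ((N + 1) ^ 2) 1).eval (k : ℤ)).natAbs.Prime
      rw [e1, f1, Int.natAbs_neg, Int.natAbs_natCast]
      exact h2.2
  · left
    rintro q hq ⟨i, hd'⟩
    apply h2 q hq
    fin_cases i
    · change (q : ℤ) ∣ (Pool.Agent.K7.H40.GB.gd (N ^ 2 + 1) ((N + 1) ^ 2) 0).eval (k : ℤ) at hd'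
      rw [e0, f0] at hd'
      exact dvd_mul_of_dvd_left (by exact_mod_cast hd') _
    · change (q : ℤ) ∣ (Pool.Agent.K7.H40.GB.gd (N ^ 2 + 1) ((N + 1) ^ 2) 1).eval (k : ℤ) at hd'
      rw [e1, f1, dvd_neg] at hd'
      exact dvd_mul_of_dvd_right (by exact_mod_cast hd') _

theorem sum_eq (N : ℕ) : N ^ 2 + 1 + (N + 1) ^ 2 = 2 * (N ^ 2 + N + 1) := by ring

theorem P_eq (t : ℝ) (N : ℕ) : Pool.Agent.K7.H64.BQ.PP t (N ^ 2 + 1 + (N + 1) ^ 2) = P t N := by
  rw [sum_eq]
  rfl

/-- **Sumsets of dense sets of pairs between consecutive squares.** For every `κ > 0` there is `c > 0` such that for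
all `N`, `M`, all `L ≥ 2`, all windows `(u, u + L]` and `(v, v + L]` with `u + L ≤ (N + 1) ^ 2` and
`v + L ≤ (M + 1) ^ 2`, all sets `A` of numbers `k` of the first window which are sifted for `N` and `L ^ κ`, and all
sets `B` of numbers `k` of the second window which are sifted for `M` and `L ^ κ`, such that `A` has at least
`P(N) L / (log L) ^ (21 / 10)` and `B` at least `P(M) L / (log L) ^ (21 / 10)` elements: if
`X = P(M) L / (|B| (log L) ^ 2)`, the number of the sums `a + b`, `a ∈ A`, `b ∈ B`, is at least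
`c |A| (log L) ^ 2 / ((log (2 + log (2 + X))) ^ 2 P_t(N))`, `t = log (2 + X)`. -/
theorem result (κ : ℝ) (hκ : 0 < κ) : ∃ c : ℝ, 0 < c ∧ ∀ (N M u v L : ℕ) (A B : Finset ℕ), 2 ≤ L →
    u + L ≤ (N + 1) ^ 2 → v + L ≤ (M + 1) ^ 2 → A ⊆ Ioc u (u + L) → B ⊆ Ioc v (v + L) →
    (∀ k ∈ A, Sifted N ((L : ℝ) ^ κ) k) → (∀ k ∈ B, Sifted M ((L : ℝ) ^ κ) k) →
    P 0 N * L / Real.log L ^ (21 / 10 : ℝ) ≤ (A.card : ℝ) →
    P 0 M * L / Real.log L ^ (21 / 10 : ℝ) ≤ (B.card : ℝ) →
    ∀ X : ℝ, X = P 0 M * L / (B.card * Real.log L ^ 2) →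
      c * (A.card * Real.log L ^ 2) / (Real.log (2 + Real.log (2 + X)) ^ 2 * P (Real.log (2 + X)) N) ≤
        (((A ×ˢ B).image (fun t => t.1 + t.2)).card : ℝ) := by
  obtain ⟨c, hc, h⟩ := Pool.Agent.K7.H40.GB.dense_sum hκ
  refine ⟨c, hc, ?_⟩
  intro N M u v L A B hL hu hv hA hB hSA hSB hdA hdB X hX
  have heven : ∀ N : ℕ, Even (N ^ 2 + 1 + (N + 1) ^ 2) := fun N => by
    rw [sum_eq]
    exact even_two_mul _
  have hpos : ∀ N : ℕ, 0 < N ^ 2 + 1 + (N + 1) ^ 2 := fun N => by positivity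
  have h1 := h (N ^ 2 + 1) ((N + 1) ^ 2) (M ^ 2 + 1) ((M + 1) ^ 2) (heven N) (hpos N) (heven M) (hpos M) L hL u v A B
    ((A ×ˢ B).image (fun t => t.1 + t.2)) hA hB
    (fun k hk => good_of (by have := mem_Ioc.1 (hA hk); omega) (hSA k hk))
    (fun k hk => good_of (by have := mem_Ioc.1 (hB hk); omega) (hSB k hk))
    (fun m hm n hn => mem_image.2 ⟨(m, n), mem_product.2 ⟨hm, hn⟩, rfl⟩)
    (by rw [P_eq]; exact hdA) (by rw [P_eq]; exact hdB)
  rw [P_eq, P_eq] at h1
  have hL2 : (2 : ℝ) ≤ L := by exact_mod_cast hL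
  have hlL : 0 < Real.log L := Real.log_pos (by linarith)
  have hX0 : 0 ≤ X := by
    rw [hX]
    have : 0 ≤ P 0 M := by
      unfold P
      exact prod_nonneg fun p _ => by positivity
    positivity
  have h2 : 0 < Real.log (2 + X) := Real.log_pos (by linarith)
  have h3 : 0 < Real.log (2 + Real.log (2 + X)) := Real.log_pos (by linarith)
  have h4 : 0 < P (Real.log (2 + X)) N := by
    unfold P
    exact prod_pos fun p _ => by positivity
  rw [div_le_iff₀ (by positivity)]
  refine (h1.trans (le_of_eq ?_))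
  rw [hX]
  ring

end Pool.Agent.Results.MP_e94e4b_nt.SumsetsOfPairs
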